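import Pool.Agent.H11.EL.Targets

/-! # MP_0b603e_al, module LM -/

set_option autoImplicit false

open scoped commutatorElement

namespace Pool.Agent.H48.EL

open Pool.Agent.H11.EL

theorem pf_lm : T_LN → T_LM := by
  intro hLN G _ M hM n a b htop κ hκ
  have hD : (⁅M, M⁆ : Subgroup G).Normal := Subgroup.commutator_normal M M
  obtain ⟨q, hqd⟩ : ∃ q : G →* G ⧸ ⁅M, M⁆, q = QuotientGroup.mk' ⁅M, M⁆ := ⟨_, rfl⟩
  have hq : Function.Surjective q := by
    rw [hqd]
    exact QuotientGroup.mk'_surjective _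
  have heq : ∀ u v : G, q u = q v ↔ u⁻¹ * v ∈ ⁅M, M⁆ := by
    intro u v
    rw [hqd, QuotientGroup.mk'_apply, QuotientGroup.mk'_apply]
    exact QuotientGroup.eq
  have hN : (M.map q).Normal := hM.map q hq
  have hab : ∀ x ∈ M.map q, ∀ y ∈ M.map q, x * y = y * x := by
    intro x' hx' y' hy'
    obtain ⟨x, hx, rfl⟩ := Subgroup.mem_map.1 hx'
    obtain ⟨y, hy, rfl⟩ := Subgroup.mem_map.1 hy'
    rw [← map_mul, ← map_mul, heq]
    have h1 : (x * y)⁻¹ * (y * x) = ⁅y⁻¹, x⁻¹⁆ := by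
      rw [commutatorElement_def]
      group
    rw [h1]
    exact Subgroup.commutator_mem_commutator (M.inv_mem hy) (M.inv_mem hx)
  have hcl : Subgroup.closure (ent n (fun i => q (a i)) (fun i => q (b i)) ∪
      ((M.map q : Subgroup (G ⧸ ⁅M, M⁆)) : Set (G ⧸ ⁅M, M⁆))) = ⊤ := by
    rw [← ent_map, Subgroup.coe_map, ← Set.image_union, ← MonoidHom.map_closure, htop,
      Subgroup.map_top_of_surjective q hq]
  have h1 : q κ ∈ ⁅M.map q, (⊤ : Subgroup (G ⧸ ⁅M, M⁆))⁆ := by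
    have h2 : q κ ∈ (⁅M, (⊤ : Subgroup G)⁆).map q := Subgroup.mem_map_of_mem q hκ
    rwa [Subgroup.map_commutator, Subgroup.map_top_of_surjective q hq] at h2
  obtain ⟨x', y', hx', hy', hT⟩ := hLN (G ⧸ ⁅M, M⁆) (M.map q) (M.map q) hN hab hab n _ _ hcl
    (q κ) h1
  choose x hx using fun i => Subgroup.mem_map.1 (hx' i)
  choose y hy using fun i => Subgroup.mem_map.1 (hy' i)
  have hx2 : (fun i => q (x i)) = x' := funext fun i => (hx i).2
  have hy2 : (fun i => q (y i)) = y' := funext fun i => (hy i).2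
  refine ⟨x, y, fun i => (hx i).1, fun i => (hy i).1, (Th n a b x y)⁻¹ * κ, ?_, by group⟩
  rw [← heq, Th_map, hx2, hy2, hT]

end Pool.Agent.H48.EL
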